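import Mathlib

/-!
# Weak Baire measurability of the norm from a dense subspace (MP_51339e_an, Q1: no)

Let `G = 2^ℕ` and let `S` be the set of finite `0-1` sequences. For a finitely supported function
`v` on `G` let `Φ v ∈ ℓ_∞(S ⊔ G)` have the coordinates `2^{-|s|} v(I_s)` (`I_s` the set of `γ ∈ G` which
extend `s`) at `s ∈ S`, and `v(γ)` at `γ ∈ G`. Let `A` be the range of `Φ` and `X` its closure.
* On `A` the norm is the limit of `max (sup_s |x_s|) (sup_{|s| = m} 2^m |x_s|)`, `m → ∞`, so it is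
  relatively measurable.
* The unit vectors `e_γ`, `γ ∈ G`, are in `X`, and each functional on `X` vanishes at all but
  countably many of them. So for each weak Baire set `B` we have `e_γ ∈ B ↔ 0 ∈ B` for all but
  countably many `γ`, and the set `{‖x‖ < 1/2}` is not a weak Baire set.
-/

set_option autoImplicit false

open Set Topology Filter MeasureTheory
open scoped ENNReal

namespace Pool.Agent.Results.MP_51339e_an.NormNotMeasurable

section defs

variable (X : Type) [NormedAddCommGroup X] [NormedSpace ℝ X]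

variable {X} in
/-- `f : X → ℝ` is continuous for the weak topology of `X`. -/
def IsWeaklyContinuous (f : X → ℝ) : Prop :=
  Continuous fun y : WeakSpace ℝ X => f ((toWeakSpace ℝ X).symm y)

/-- `Ba(X, w)`: the smallest sigma-algebra on `X` for which all weakly continuous functions
`X → ℝ` are measurable. -/
@[instance_reducible]
def weakBaire : MeasurableSpace X :=
  MeasurableSpace.generateFrom
    {B | ∃ (f : X → ℝ) (U : Set ℝ), IsWeaklyContinuous f ∧ IsOpen U ∧ B = f ⁻¹' U}

/-- The norm of `X` is `Ba(X, w)`-measurable. -/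
def NormMeasurable : Prop :=
  ∀ U : Set ℝ, IsOpen U → MeasurableSet[weakBaire X] {x : X | ‖x‖ ∈ U}

variable {X} in
/-- The norm of `X` is relatively `Ba(X, w)`-measurable on `A`. -/
def NormRelMeasurable (A : Set X) : Prop :=
  ∀ U : Set ℝ, IsOpen U → ∃ B : Set X, MeasurableSet[weakBaire X] B ∧ {x ∈ A | ‖x‖ ∈ U} = B ∩ A

end defs

/-- the Cantor space -/
abbrev G : Type := ℕ → Bool

/-- finite sequences -/
abbrev S : Type := Σ n : ℕ, (Fin n → Bool)

/-- the restriction of a point of the Cantor space -/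
def res (n : ℕ) (γ : G) : Fin n → Bool := fun i => γ i

/-- the big space -/
abbrev Y : Type := lp (fun _ : S ⊕ G => ℝ) ∞

open Classical in
/-- the images of the unit vectors -/
noncomputable def Efun (γ : G) : S ⊕ G → ℝ
  | .inl s => if res s.1 γ = s.2 then (1 / 2) ^ s.1 else 0
  | .inr t => if γ = t then 1 else 0

lemma abs_Efun_le (γ : G) (i : S ⊕ G) : |Efun γ i| ≤ 1 := by
  rcases i with s | t
  · unfold Efun
    simp only
    split_ifs
    · rw [abs_of_nonneg (by positivity)]
      exact pow_le_one₀ (by norm_num) (by norm_num)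
    · simp
  · unfold Efun
    simp only
    split_ifs <;> simp

lemma memlp_Efun (γ : G) : Memℓp (Efun γ) ∞ := by
  refine memℓp_infty ⟨1, ?_⟩
  rintro _ ⟨i, rfl⟩
  exact abs_Efun_le γ i

/-- the images of the unit vectors -/
noncomputable def E (γ : G) : Y := ⟨Efun γ, memlp_Efun γ⟩

/-- the map `Φ` -/
noncomputable def Phi : (G →₀ ℝ) →ₗ[ℝ] Y := Finsupp.linearCombination ℝ E

/-- coordinates -/
noncomputable def coord (i : S ⊕ G) : Y →L[ℝ] ℝ :=
  LinearMap.mkContinuous
    { toFun := fun y => y i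
      map_add' := fun _ _ => rfl
      map_smul' := fun _ _ => rfl } 1 (fun y => by
        rw [one_mul]
        exact lp.norm_apply_le_norm ENNReal.top_ne_zero y i)

lemma coord_apply (i : S ⊕ G) (y : Y) : coord i y = y i := rfl

lemma Phi_apply (v : G →₀ ℝ) (i : S ⊕ G) : Phi v i = v.sum fun γ a => a * Efun γ i := by
  rw [← coord_apply i (Phi v)]
  unfold Phi
  rw [Finsupp.linearCombination_apply, Finsupp.sum, map_sum]
  refine Finset.sum_congr rfl fun γ _ => ?_
  rw [map_smul, smul_eq_mul]
  rfl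

lemma Phi_inr (v : G →₀ ℝ) (t : G) : Phi v (.inr t) = v t := by
  classical
  rw [Phi_apply, Finsupp.sum]
  have : ∀ γ ∈ v.support, v γ * Efun γ (.inr t) = if γ = t then v γ else 0 := by
    intro γ _
    by_cases h : γ = t
    · simp [Efun, h]
    · simp [Efun, h]
  rw [Finset.sum_congr rfl this, Finset.sum_ite_eq']
  split_ifs with h
  · rfl
  · exact (Finsupp.notMem_support_iff.1 h).symm

open Classical in
lemma Phi_inl (v : G →₀ ℝ) (n : ℕ) (s : Fin n → Bool) :
    Phi v (.inl ⟨n, s⟩) = (1 / 2) ^ n * ∑ γ ∈ v.support, if res n γ = s then v γ else 0 := by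
  rw [Phi_apply, Finsupp.sum, Finset.mul_sum]
  refine Finset.sum_congr rfl fun γ _ => ?_
  unfold Efun
  simp only
  split_ifs
  · ring
  · ring

/-- the dense subspace of the big space -/
noncomputable def A₀ : Submodule ℝ Y := LinearMap.range Phi

/-- the space -/
abbrev X : Type := A₀.topologicalClosure

/-- the dense subspace -/
noncomputable def A : Submodule ℝ X := A₀.comap A₀.topologicalClosure.subtype

lemma dense_A : Dense (A : Set X) := by
  intro x
  rw [IsInducing.subtypeVal.closure_eq_preimage_closure_image, mem_preimage]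
  have h1 : ((fun x : X => (x : Y)) '' (A : Set X)) = (A₀ : Set Y) := by
    ext y
    constructor
    · rintro ⟨x, hx, rfl⟩
      exact hx
    · intro hy
      exact ⟨⟨y, subset_closure hy⟩, hy, rfl⟩
  have h2 : (x : Y) ∈ closure ((fun x : X => (x : Y)) '' (A : Set X)) := by
    rw [h1]
    exact x.2
  exact h2

/-- separation of finitely many points by their restrictions -/
lemma eventually_res_ne (F : Finset G) :
    ∀ᶠ m : ℕ in atTop, ∀ γ ∈ F, ∀ γ' ∈ F, res m γ = res m γ' → γ = γ' := by
  rw [Filter.eventually_all_finset]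
  intro γ _
  rw [Filter.eventually_all_finset]
  intro γ' _
  by_cases h : γ = γ'
  · exact Eventually.of_forall fun _ _ => h
  · obtain ⟨i, hi⟩ := Function.ne_iff.1 h
    filter_upwards [eventually_gt_atTop i] with m hm hres
    exact absurd (congrFun hres ⟨i, hm⟩) hi

/-- the approximating functions -/
noncomputable def gm (m : ℕ) (y : Y) : ℝ :=
  max (⨆ s : S, |y (.inl s)|) (⨆ s : Fin m → Bool, 2 ^ m * |y (.inl ⟨m, s⟩)|)

lemma norm_eq_gm (v : G →₀ ℝ) : ∀ᶠ m in atTop, ‖Phi v‖ = gm m (Phi v) := by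
  classical
  filter_upwards [eventually_res_ne v.support] with m hm
  have hbdd1 : BddAbove (Set.range fun s : S => |Phi v (.inl s)|) := by
    refine ⟨‖Phi v‖, ?_⟩
    rintro _ ⟨s, rfl⟩
    exact lp.norm_apply_le_norm ENNReal.top_ne_zero (Phi v) (.inl s)
  have hbdd2 : BddAbove (Set.range fun s : Fin m → Bool => 2 ^ m * |Phi v (.inl ⟨m, s⟩)|) :=
    Set.Finite.bddAbove (Set.finite_range _)
  -- the value at level `m`
  have hval : ∀ γ ∈ v.support, 2 ^ m * |Phi v (.inl ⟨m, res m γ⟩)| = |v γ| := by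
    intro γ hγ
    rw [Phi_inl, Finset.sum_eq_single γ]
    · rw [if_pos rfl, abs_mul, abs_of_nonneg (by positivity : (0 : ℝ) ≤ (1 / 2) ^ m), ← mul_assoc,
        ← mul_pow]
      norm_num
    · intro γ' hγ' hne
      rw [if_neg]
      intro h
      exact hne (hm γ' hγ' γ hγ h)
    · intro h; exact absurd hγ h
  apply le_antisymm
  · refine lp.norm_le_of_forall_le ?_ ?_
    · unfold gm
      refine le_max_of_le_left ?_
      exact (abs_nonneg (Phi v (.inl ⟨0, fun i => true⟩))).trans
        (le_ciSup hbdd1 (⟨0, fun i => true⟩ : S))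
    · rintro (s | t)
      · exact le_max_of_le_left (le_ciSup hbdd1 s)
      · rw [Phi_inr, Real.norm_eq_abs]
        by_cases ht : t ∈ v.support
        · refine le_max_of_le_right ?_
          rw [← hval t ht]
          exact le_ciSup hbdd2 (res m t)
        · have : v t = 0 := by simpa using ht
          rw [this, abs_zero]
          refine le_max_of_le_left ?_
          exact (abs_nonneg (Phi v (.inl ⟨0, fun i => true⟩))).trans
            (le_ciSup hbdd1 (⟨0, fun i => true⟩ : S))
  · refine max_le ?_ ?_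
    · have : Nonempty S := ⟨⟨0, fun i => true⟩⟩
      exact ciSup_le fun s => lp.norm_apply_le_norm ENNReal.top_ne_zero (Phi v) (.inl s)
    · refine ciSup_le fun s => ?_
      by_cases hs : ∃ γ ∈ v.support, res m γ = s
      · obtain ⟨γ, hγ, rfl⟩ := hs
        rw [hval γ hγ, ← Phi_inr]
        exact lp.norm_apply_le_norm ENNReal.top_ne_zero (Phi v) _
      · push Not at hs
        rw [Phi_inl, Finset.sum_eq_zero, mul_zero, abs_zero, mul_zero]
        · exact norm_nonneg _
        · intro γ hγ
          rw [if_neg (hs γ hγ)]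

lemma isWeaklyContinuous_coord (i : S ⊕ G) :
    IsWeaklyContinuous (fun x : X => (x : Y) i) := by
  have h1 : Continuous fun y : WeakSpace ℝ X =>
      (topDualPairing ℝ X).flip ((toWeakSpace ℝ X).symm y)
        ((coord i).comp A₀.topologicalClosure.subtypeL) :=
    WeakBilin.eval_continuous (topDualPairing ℝ X).flip
      ((coord i).comp A₀.topologicalClosure.subtypeL)
  exact h1

lemma measurable_of_isWeaklyContinuous {f : X → ℝ} (hf : IsWeaklyContinuous f) :
    @Measurable X ℝ (weakBaire X) _ f := by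
  refine @measurable_of_isOpen _ _ _ _ _ (weakBaire X) f ?_
  intro U hU
  exact MeasurableSpace.measurableSet_generateFrom ⟨f, U, hf, hU, rfl⟩

lemma measurable_gm (m : ℕ) : @Measurable X ℝ (weakBaire X) _ (fun x : X => gm m x) := by
  let _ : MeasurableSpace X := weakBaire X
  have h1 : ∀ i : S ⊕ G, Measurable fun x : X => (x : Y) i := fun i =>
    measurable_of_isWeaklyContinuous (isWeaklyContinuous_coord i)
  refine Measurable.max ?_ ?_
  · exact Measurable.iSup fun s => (h1 (.inl s)).norm
  · exact Measurable.iSup fun s => ((h1 (.inl ⟨m, s⟩)).norm).const_mul _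

lemma normRelMeasurable_A : NormRelMeasurable (A : Set X) := by
  intro U hU
  let _ : MeasurableSpace X := weakBaire X
  have h1 : Measurable fun a : (A : Set X) => ‖(a : X)‖ := by
    refine measurable_of_tendsto_metrizable (f := fun (m : ℕ) (a : (A : Set X)) =>
      gm m ((a : X) : Y)) (fun m => ?_) ?_
    · exact (measurable_gm m).comp measurable_subtype_coe
    · rw [tendsto_pi_nhds]
      rintro ⟨a, ha⟩
      obtain ⟨v, hv⟩ : ((a : X) : Y) ∈ LinearMap.range Phi := ha
      refine tendsto_const_nhds.congr' ?_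
      filter_upwards [norm_eq_gm v] with m hm
      show ‖(a : X)‖ = gm m (a : Y)
      rw [← hv]
      rw [← hm, hv]
      rfl
  have h2 := h1 hU.measurableSet
  rw [MeasurableSpace.measurableSet_comap] at h2
  obtain ⟨B, hB, hB2⟩ := h2
  refine ⟨B, hB, ?_⟩
  ext x
  constructor
  · rintro ⟨hxA, hxU⟩
    have : (⟨x, hxA⟩ : (A : Set X)) ∈ Subtype.val ⁻¹' B := by rw [hB2]; exact hxU
    exact ⟨this, hxA⟩
  · rintro ⟨hxB, hxA⟩
    refine ⟨hxA, ?_⟩
    have : (⟨x, hxA⟩ : (A : Set X)) ∈ Subtype.val ⁻¹' B := hxB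
    rw [hB2] at this
    exact this

open Classical in
/-- the unit vectors -/
noncomputable def e₀ (γ : G) : Y := lp.single ∞ (Sum.inr γ) (1 : ℝ)

lemma e₀_inl (γ : G) (s : S) : e₀ γ (.inl s) = 0 := by
  classical
  exact lp.single_apply_ne (E := fun _ : S ⊕ G => ℝ) ∞ (Sum.inr γ) (1 : ℝ) (by simp)

open Classical in
lemma e₀_inr (γ t : G) : e₀ γ (.inr t) = if γ = t then 1 else 0 := by
  classical
  by_cases h : γ = t
  · subst h
    rw [if_pos rfl]
    exact lp.single_apply_self (E := fun _ : S ⊕ G => ℝ) ∞ (Sum.inr γ) (1 : ℝ)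
  · rw [if_neg h]
    exact lp.single_apply_ne (E := fun _ : S ⊕ G => ℝ) ∞ (Sum.inr γ) (1 : ℝ)
      (by intro h2; exact h (Sum.inr.inj h2).symm)

lemma norm_e₀ (γ : G) : ‖e₀ γ‖ = 1 := by
  classical
  have := lp.norm_single (E := fun _ : S ⊕ G => ℝ) (p := ∞) (by simp) (Sum.inr γ) (1 : ℝ)
  rw [norm_one] at this
  exact this

/-- flip one coordinate -/
def fl (γ : G) (k j : ℕ) : G := Function.update γ (k + j) (!γ (k + j))

lemma res_fl (γ : G) {n k j : ℕ} (h : n ≤ k) : res n (fl γ k j) = res n γ := by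
  funext i
  unfold res fl
  rw [Function.update_of_ne]
  have := i.2
  omega

lemma fl_inj (γ : G) (k : ℕ) {i j : ℕ} (h : fl γ k i = fl γ k j) : i = j := by
  by_contra hne
  have h1 := congrFun h (k + i)
  unfold fl at h1
  rw [Function.update_self, Function.update_of_ne (by omega)] at h1
  simp at h1

lemma tendsto_bound : Tendsto (fun k : ℕ => 2 * (1 / 2 : ℝ) ^ k + 1 / ((k : ℝ) + 1)) atTop
    (𝓝 0) := by
  have h1 : Tendsto (fun k : ℕ => 2 * (1 / 2 : ℝ) ^ k) atTop (𝓝 (2 * 0)) :=
    (tendsto_pow_atTop_nhds_zero_of_lt_one (by norm_num) (by norm_num)).const_mul 2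
  have h2 := h1.add tendsto_one_div_add_atTop_nhds_zero_nat
  simpa using h2

lemma e₀_mem (γ : G) : e₀ γ ∈ A₀.topologicalClosure := by
  classical
  set u : ℕ → Y := fun k => E γ - (1 / ((k : ℝ) + 1)) • ∑ j ∈ Finset.range (k + 1), E (fl γ k j)
    with hu
  have hE : ∀ γ, E γ ∈ A₀ := by
    intro γ
    refine ⟨Finsupp.single γ 1, ?_⟩
    unfold Phi
    rw [Finsupp.linearCombination_single, one_smul]
  have hmem : ∀ k, u k ∈ A₀ := fun k =>
    A₀.sub_mem (hE γ) (A₀.smul_mem _ (A₀.sum_mem fun j _ => hE _))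
  have hcoord : ∀ k i, (u k - e₀ γ) i = Efun γ i -
      (1 / ((k : ℝ) + 1)) * (∑ j ∈ Finset.range (k + 1), Efun (fl γ k j) i) - e₀ γ i := by
    intro k i
    rw [← coord_apply, hu]
    simp only [map_sub, map_smul, map_sum, smul_eq_mul]
    rfl
  have hbound : ∀ k : ℕ, ‖u k - e₀ γ‖ ≤ 2 * (1 / 2 : ℝ) ^ k + 1 / ((k : ℝ) + 1) := by
    intro k
    have hk : (0 : ℝ) < (k : ℝ) + 1 := by positivity
    refine lp.norm_le_of_forall_le (by positivity) ?_
    rintro (⟨n, s⟩ | t)
    · rw [hcoord, e₀_inl, sub_zero, Real.norm_eq_abs]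
      by_cases hn : n ≤ k
      · have h1 : ∀ j ∈ Finset.range (k + 1), Efun (fl γ k j) (.inl ⟨n, s⟩) =
            Efun γ (.inl ⟨n, s⟩) := by
          intro j _
          unfold Efun
          simp only
          rw [res_fl γ hn]
        rw [Finset.sum_congr rfl h1, Finset.sum_const, Finset.card_range, nsmul_eq_mul]
        push_cast
        rw [← mul_assoc, one_div, inv_mul_cancel₀ hk.ne', one_mul, sub_self, abs_zero]
        positivity
      · have h1 : ∀ γ' : G, |Efun γ' (.inl ⟨n, s⟩)| ≤ (1 / 2) ^ k := by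
          intro γ'
          unfold Efun
          simp only
          split_ifs
          · rw [abs_of_nonneg (by positivity)]
            exact pow_le_pow_of_le_one (by norm_num) (by norm_num) (by omega)
          · rw [abs_zero]; positivity
        have h2 : |∑ j ∈ Finset.range (k + 1), Efun (fl γ k j) (.inl ⟨n, s⟩)| ≤
            ((k : ℝ) + 1) * (1 / 2) ^ k := by
          refine (Finset.abs_sum_le_sum_abs _ _).trans ?_
          refine (Finset.sum_le_sum fun j _ => h1 (fl γ k j)).trans ?_
          rw [Finset.sum_const, Finset.card_range, nsmul_eq_mul]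
          push_cast
          exact le_rfl
        have h3 : |(1 / ((k : ℝ) + 1)) *
            ∑ j ∈ Finset.range (k + 1), Efun (fl γ k j) (.inl ⟨n, s⟩)| ≤ (1 / 2) ^ k := by
          rw [abs_mul, abs_of_pos (by positivity)]
          calc _ ≤ 1 / ((k : ℝ) + 1) * (((k : ℝ) + 1) * (1 / 2) ^ k) :=
                mul_le_mul_of_nonneg_left h2 (by positivity)
            _ = (1 / 2) ^ k := by field_simp
        have h4 := h1 γ
        have h5 : (0 : ℝ) ≤ 1 / ((k : ℝ) + 1) := by positivity
        refine (abs_sub _ _).trans ?_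
        linarith
    · rw [hcoord, e₀_inr, Real.norm_eq_abs]
      have h1 : Efun γ (.inr t) = if γ = t then 1 else 0 := rfl
      rw [h1]
      have h2 : ∀ a b : ℝ, a - b - a = -b := by intro a b; ring
      rw [h2, abs_neg, abs_mul, abs_of_pos (by positivity)]
      have h3 : |∑ j ∈ Finset.range (k + 1), Efun (fl γ k j) (.inr t)| ≤ 1 := by
        have h4 : ∀ j, Efun (fl γ k j) (.inr t) = if fl γ k j = t then 1 else 0 := fun j => rfl
        simp only [h4]
        rw [Finset.sum_boole, abs_of_nonneg (by positivity)]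
        have h5 : (Finset.filter (fun j => fl γ k j = t) (Finset.range (k + 1))).card ≤ 1 := by
          rw [Finset.card_le_one]
          intro a ha b hb
          rw [Finset.mem_filter] at ha hb
          exact fl_inj γ k (ha.2.trans hb.2.symm)
        exact_mod_cast h5
      calc 1 / ((k : ℝ) + 1) * |∑ j ∈ Finset.range (k + 1), Efun (fl γ k j) (.inr t)|
          ≤ 1 / ((k : ℝ) + 1) * 1 := mul_le_mul_of_nonneg_left h3 (by positivity)
        _ ≤ 2 * (1 / 2) ^ k + 1 / ((k : ℝ) + 1) := by
            rw [mul_one]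
            have : (0 : ℝ) ≤ 2 * (1 / 2) ^ k := by positivity
            linarith
  have hlim : Tendsto u atTop (𝓝 (e₀ γ)) := by
    rw [tendsto_iff_norm_sub_tendsto_zero]
    exact squeeze_zero (fun k => norm_nonneg _) hbound tendsto_bound
  exact mem_closure_of_tendsto hlim (Eventually.of_forall hmem)

/-- the unit vectors of `X` -/
noncomputable def e (γ : G) : X := ⟨e₀ γ, e₀_mem γ⟩

lemma norm_e (γ : G) : ‖e γ‖ = 1 := norm_e₀ γ

lemma norm_sum_le (F : Finset G) (c : G → ℝ) (hc : ∀ γ, |c γ| ≤ 1) :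
    ‖∑ γ ∈ F, c γ • e γ‖ ≤ 1 := by
  classical
  have h0 : ‖∑ γ ∈ F, c γ • e γ‖ = ‖∑ γ ∈ F, c γ • e₀ γ‖ := by
    have h1 : ((∑ γ ∈ F, c γ • e γ : X) : Y) = ∑ γ ∈ F, c γ • e₀ γ := by
      rw [Submodule.coe_sum]
      rfl
    rw [← h1]
    rfl
  rw [h0]
  refine lp.norm_le_of_forall_le zero_le_one ?_
  intro i
  rw [← coord_apply, map_sum, Real.norm_eq_abs]
  rcases i with s | t
  · rw [Finset.sum_eq_zero, abs_zero]
    · exact zero_le_one
    · intro γ _
      rw [map_smul, coord_apply, e₀_inl, smul_zero]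
  · have h1 : ∀ γ ∈ F, coord (.inr t) (c γ • e₀ γ) = if γ = t then c γ else 0 := by
      intro γ _
      rw [map_smul, coord_apply, e₀_inr]
      split_ifs <;> simp
    rw [Finset.sum_congr rfl h1, Finset.sum_ite_eq']
    split_ifs
    · exact hc t
    · simp

lemma countable_ne (f : X →L[ℝ] ℝ) : {γ : G | f (e γ) ≠ 0}.Countable := by
  have hs : Summable fun γ => |f (e γ)| := by
    refine summable_of_sum_le (c := ‖f‖) (fun γ => abs_nonneg _) fun F => ?_
    set c : G → ℝ := fun γ => if 0 ≤ f (e γ) then 1 else -1 with hc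
    have hc1 : ∀ γ, |c γ| ≤ 1 := by
      intro γ
      rw [hc]
      simp only
      split_ifs <;> simp
    have h1 : ∑ γ ∈ F, |f (e γ)| = f (∑ γ ∈ F, c γ • e γ) := by
      rw [map_sum]
      refine Finset.sum_congr rfl fun γ _ => ?_
      rw [map_smul, smul_eq_mul, hc]
      simp only
      split_ifs with h
      · rw [one_mul, abs_of_nonneg h]
      · rw [neg_one_mul, abs_of_neg (not_le.1 h)]
    rw [h1]
    refine (le_abs_self _).trans ((f.le_opNorm _).trans ?_)
    have h2 := mul_le_mul_of_nonneg_left (norm_sum_le F c hc1) (norm_nonneg f)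
    rwa [mul_one] at h2
  refine hs.countable_support.mono ?_
  intro γ hγ
  rw [Function.mem_support]
  exact abs_ne_zero.2 hγ

/-- a weakly continuous function has the same value at `0` and at all but countably many `e_γ` -/
lemma countable_ne_of_isWeaklyContinuous {f : X → ℝ} (hf : IsWeaklyContinuous f) :
    {γ : G | f (e γ) ≠ f 0}.Countable := by
  have h1 : ∀ n : ℕ, {γ : G | ¬ |f (e γ) - f 0| < 1 / ((n : ℝ) + 1)}.Countable := by
    intro n
    have h2 : {y : WeakSpace ℝ X | |f ((toWeakSpace ℝ X).symm y) - f 0| < 1 / ((n : ℝ) + 1)} ∈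
        𝓝 (0 : WeakSpace ℝ X) := by
      have h3 : Continuous fun y : WeakSpace ℝ X => |f ((toWeakSpace ℝ X).symm y) - f 0| :=
        (hf.sub continuous_const).abs
      refine (isOpen_lt h3 continuous_const).mem_nhds ?_
      show |f ((toWeakSpace ℝ X).symm 0) - f 0| < 1 / ((n : ℝ) + 1)
      rw [map_zero, sub_self, abs_zero]
      positivity
    have hind : IsInducing fun (y : WeakSpace ℝ X) (g : StrongDual ℝ X) =>
        g ((toWeakSpace ℝ X).symm y) := ⟨rfl⟩
    rw [hind.nhds_eq_comap, mem_comap] at h2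
    obtain ⟨V, hV, hVs⟩ := h2
    rw [nhds_pi, Filter.mem_pi'] at hV
    obtain ⟨F, t, ht, hFt⟩ := hV
    have h4 : (⋃ g ∈ F, {γ : G | g (e γ) ≠ 0}).Countable :=
      F.countable_toSet.biUnion fun g _ => countable_ne g
    refine h4.mono ?_
    intro γ hγ
    by_contra hcon
    apply hγ
    have h5 : (toWeakSpace ℝ X (e γ)) ∈ {y : WeakSpace ℝ X |
        |f ((toWeakSpace ℝ X).symm y) - f 0| < 1 / ((n : ℝ) + 1)} := by
      apply hVs
      apply hFt
      intro g hg
      have h6 : g (e γ) = 0 := by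
        by_contra h7
        exact hcon (Set.mem_biUnion hg h7)
      have h7 := mem_of_mem_nhds (ht g)
      show g ((toWeakSpace ℝ X).symm (toWeakSpace ℝ X (e γ))) ∈ t g
      rw [LinearEquiv.symm_apply_apply, h6]
      rw [map_zero, map_zero] at h7
      exact h7
    exact h5
  refine (Set.countable_iUnion h1).mono ?_
  intro γ hγ
  rw [mem_iUnion]
  have h3 : 0 < |f (e γ) - f 0| := abs_pos.2 (sub_ne_zero.2 hγ)
  obtain ⟨n, hn⟩ := exists_nat_one_div_lt h3
  exact ⟨n, fun h => absurd (h.trans hn) (lt_irrefl _)⟩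

lemma countable_of_measurableSet {B : Set X} (hB : MeasurableSet[weakBaire X] B) :
    {γ : G | ¬ (e γ ∈ B ↔ (0 : X) ∈ B)}.Countable := by
  refine MeasurableSpace.generateFrom_induction
    {B | ∃ (f : X → ℝ) (U : Set ℝ), IsWeaklyContinuous f ∧ IsOpen U ∧ B = f ⁻¹' U}
    (fun B _ => {γ : G | ¬ (e γ ∈ B ↔ (0 : X) ∈ B)}.Countable) ?_ ?_ ?_ ?_ B hB
  · rintro _ ⟨f, U, hf, -, rfl⟩ -
    refine (countable_ne_of_isWeaklyContinuous hf).mono ?_
    intro γ hγ h
    apply hγ
    rw [mem_preimage, mem_preimage, h]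
  · simp
  · intro B _ hB
    refine hB.mono ?_
    intro γ hγ h
    apply hγ
    rw [mem_compl_iff, mem_compl_iff, h]
  · intro B _ hB
    refine (Set.countable_iUnion hB).mono ?_
    intro γ hγ
    rw [mem_iUnion]
    by_contra hcon
    apply hγ
    rw [mem_iUnion, mem_iUnion]
    refine exists_congr fun n => ?_
    by_contra h
    exact hcon ⟨n, h⟩

lemma not_normMeasurable : ¬ NormMeasurable X := by
  intro h
  have h1 := countable_of_measurableSet (h (Iio (1 / 2)) isOpen_Iio)
  have h2 : {γ : G | ¬ (e γ ∈ {x : X | ‖x‖ ∈ Iio (1 / 2 : ℝ)} ↔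
      (0 : X) ∈ {x : X | ‖x‖ ∈ Iio (1 / 2 : ℝ)})} = univ := by
    rw [eq_univ_iff_forall]
    intro γ hγ
    have h3 : (0 : X) ∈ {x : X | ‖x‖ ∈ Iio (1 / 2 : ℝ)} := by
      show ‖(0 : X)‖ < 1 / 2
      rw [norm_zero]; norm_num
    have h4 : ‖e γ‖ < 1 / 2 := hγ.2 h3
    rw [norm_e] at h4
    norm_num at h4
  rw [h2] at h1
  have h3 : Countable G := Set.countable_univ_iff.1 h1
  have h4 : Cardinal.mk G ≤ Cardinal.aleph0 := Cardinal.mk_le_aleph0_iff.2 h3
  have h5 : Cardinal.mk G = 2 ^ Cardinal.aleph0 := by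
    rw [← Cardinal.mk_bool, ← Cardinal.mk_nat, Cardinal.power_def]
  rw [h5] at h4
  exact absurd h4 (not_le.2 (Cardinal.cantor _))

/-- There are a real Banach space `X` and a norm dense linear subspace `A` of `X` such that the norm
is relatively `Ba(X, w)`-measurable on `A` but the norm is not `Ba(X, w)`-measurable on `X`. -/
theorem result : ∃ (X : Type) (_ : NormedAddCommGroup X) (_ : NormedSpace ℝ X),
    CompleteSpace X ∧ ∃ A : Submodule ℝ X, Dense (A : Set X) ∧
      NormRelMeasurable (A : Set X) ∧ ¬ NormMeasurable X :=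
  ⟨X, inferInstance, inferInstance, A₀.isClosed_topologicalClosure.completeSpace_coe, A, dense_A,
    normRelMeasurable_A, not_normMeasurable⟩

end Pool.Agent.Results.MP_51339e_an.NormNotMeasurable
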